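import Pool.Agent.Helper16.NR.Stmts2

set_option autoImplicit false

namespace Pool.Helper16.NR

theorem gcd_count (m d : ℕ) (_hm : 1 ≤ m) :
    d * ((Finset.Ico m (2 * m)).filter (fun j => d ∣ j)).card ≤ 2 * m := by
  have h1 : (Finset.Ico m (2 * m)).filter (fun j => d ∣ j) ⊆
      (Finset.Ioc 0 (2 * m)).filter (fun j => d ∣ j) := by
    intro j hj
    rw [Finset.mem_filter, Finset.mem_Ico] at hj
    rw [Finset.mem_filter, Finset.mem_Ioc]
    exact ⟨⟨by omega, by omega⟩, hj.2⟩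
  calc d * ((Finset.Ico m (2 * m)).filter (fun j => d ∣ j)).card
      ≤ d * ((Finset.Ioc 0 (2 * m)).filter (fun j => d ∣ j)).card :=
        Nat.mul_le_mul_left d (Finset.card_le_card h1)
    _ = d * (2 * m / d) := by rw [Nat.Ioc_filter_dvd_card_eq_div]
    _ ≤ 2 * m := Nat.mul_div_le _ _

theorem gcd_le_sum (j q : ℕ) (hq : 1 ≤ q) :
    Nat.gcd j q ≤ ∑ d ∈ q.divisors, if d ∣ j then d else 0 := by
  have h : Nat.gcd j q ∈ q.divisors :=
    Nat.mem_divisors.2 ⟨Nat.gcd_dvd_right j q, by omega⟩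
  calc Nat.gcd j q = if Nat.gcd j q ∣ j then Nat.gcd j q else 0 := by
        rw [if_pos (Nat.gcd_dvd_left j q)]
    _ ≤ _ := Finset.single_le_sum (f := fun d => if d ∣ j then d else 0)
        (fun _ _ => Nat.zero_le _) h

theorem st_GCD : ST_GCD := by
  intro m q hm hq
  have h1 : ∀ j, Nat.gcd (110 * 55 * j) q ≤ 110 * 55 * Nat.gcd j q := by
    intro j
    rcases Nat.eq_zero_or_pos (Nat.gcd j q) with h0 | h0
    · rw [Nat.gcd_eq_zero_iff] at h0
      omega
    · apply Nat.le_of_dvd (by omega)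
      rw [← Nat.gcd_mul_left]
      exact Nat.gcd_dvd_gcd_mul_left_right _ _ _
  calc ∑ j ∈ Finset.Ico m (2 * m), Nat.gcd (110 * 55 * j) q
      ≤ ∑ j ∈ Finset.Ico m (2 * m), 110 * 55 * ∑ d ∈ q.divisors, (if d ∣ j then d else 0) :=
        Finset.sum_le_sum fun j _ => le_trans (h1 j)
          (Nat.mul_le_mul_left _ (gcd_le_sum j q hq))
    _ = 110 * 55 * ∑ d ∈ q.divisors, ∑ j ∈ Finset.Ico m (2 * m), (if d ∣ j then d else 0) := by
        rw [← Finset.mul_sum, Finset.sum_comm]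
    _ ≤ 110 * 55 * ∑ d ∈ q.divisors, 2 * m := by
        refine Nat.mul_le_mul_left _ (Finset.sum_le_sum fun d _ => ?_)
        rw [← Finset.sum_filter, Finset.sum_const, smul_eq_mul, mul_comm]
        exact gcd_count m d hm
    _ = 110 * 55 * (2 * m) * q.divisors.card := by
        rw [Finset.sum_const, smul_eq_mul]
        ring

end Pool.Helper16.NR
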